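import Pool.Agent.Results.MP_8707bd_ag.PrimeMultiplicities
import Pool.Agent.Results.MP_e6aa12_ag.AllCharacteristicsWindow

/-!
# Collisions of `10 ≤ r ≤ 15` fat points in every characteristic, prime and polynomial multiplicities

Let `10 ≤ r ≤ 15`. The hand-in `AllCharacteristicsWindow` of this problem shows: over every field, of
any characteristic, the general collision of `r` points of multiplicity `m` has the expected
postulation in ALL degrees for all `m` outside a set of upper density at most `√r - 3`. Here the same
bound is proved for the proportion of the exceptional terms of every sequence whose multiples by any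
irrational number have exponential sums `o(N)`: in particular for the prime numbers and for the values
of the nonconstant polynomials with integral coefficients.
-/

set_option autoImplicit false

open Filter Topology Finset

namespace Pool.Agent.Results.MP_e6aa12_ag.EveryCharacteristicPrimes

open Pool.Agent.Results.MP_e6aa12_ag.AllCharacteristicsWindow (Expected)

universe u

/-- the multiples of the sequence by every irrational number have exponential sums `o(N)` -/
def Equidistributed (s : ℕ → ℕ) : Prop := ∀ t : ℝ, Irrational t →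
  Tendsto (fun N : ℕ => ‖∑ n ∈ range N, Complex.exp (2 * Real.pi * Complex.I * (t * (s n : ℝ) : ℝ))‖ / N)
    atTop (𝓝 0)

/-- the number of the terms `m = s n`, `n < N`, for which, over some field, the space of forms does not
have the expected dimension in all degrees for the general collision of `r` points of multiplicity
`m` -/
noncomputable def exceptions (r : ℕ) (s : ℕ → ℕ) (N : ℕ) : ℕ :=
  Set.ncard {n : ℕ | n < N ∧ ¬ Expected.{u} r (s n) Set.univ}

lemma exists_window {r m : ℕ} (hr : 10 ≤ r) (hbad : ¬ Expected.{u} r m Set.univ) :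
    ∃ d : ℕ, Real.sqrt r * m < d ∧ (d : ℝ) < Real.sqrt r * m + (Real.sqrt r - 3) := by
  by_contra hcon
  push Not at hcon
  refine hbad ((AllCharacteristicsWindow.result.{u}.1 r m hr).mono fun d _ => ?_)
  by_cases h3 : (d : ℝ) ≤ Real.sqrt r * m
  · exact Or.inl h3
  · right
    have h4 := hcon d (not_le.1 h3)
    linarith

/-- **Main theorem.** Let `10 ≤ r ≤ 15`; then `√r - 3 < 1` (and `√10 - 3 < 0.163`). (1) Let `s` be an
equidistributed sequence. For all but at most `(√r - 3 + δ) N` of the first `N` terms `m` of the
sequence the space of forms of degree `d` containing the general collision of `r` points of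
multiplicity `m` has the expected dimension for ALL degrees `d`, over EVERY field. (2) The sequence
of the primes and the sequences of the values of nonconstant polynomials with integral coefficients
(with values `≥ 0`) are equidistributed. -/
theorem result :
    (∀ r : ℕ, 10 ≤ r → r ≤ 15 → Real.sqrt r - 3 < 1) ∧ Real.sqrt (10 : ℕ) - 3 < 0.163 ∧
    (∀ s : ℕ → ℕ, Equidistributed s → ∀ r : ℕ, 10 ≤ r → r ≤ 15 → ∀ δ : ℝ, 0 < δ →
      ∀ᶠ N : ℕ in atTop, (exceptions.{u} r s N : ℝ) ≤ (Real.sqrt r - 3 + δ) * N) ∧
    Equidistributed (Nat.nth Nat.Prime) ∧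
    (∀ q : Polynomial ℤ, 0 < q.natDegree → ∀ s : ℕ → ℕ, (∀ n : ℕ, (s n : ℤ) = q.eval (n : ℤ)) →
      Equidistributed s) := by
  classical
  have h15 : ∀ r : ℕ, 10 ≤ r → r ≤ 15 → Real.sqrt r - 3 < 1 := by
    intro r hr hr'
    have : Real.sqrt r < 4 := by
      rw [Real.sqrt_lt' (by norm_num)]
      have : (r : ℝ) ≤ 15 := by exact_mod_cast hr'
      linarith
    linarith
  have h10 : Real.sqrt (10 : ℕ) - 3 < 0.163 := by
    have h1 : Real.sqrt ((10 : ℕ) : ℝ) < 3.163 := by
      rw [Real.sqrt_lt' (by norm_num)]
      norm_num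
    linarith
  refine ⟨h15, h10, fun s hs r hr hr' δ hδ => ?_, MP_8707bd_ag.PrimeMultiplicities.good_primes,
    MP_8707bd_ag.PrimeMultiplicities.good_polynomial⟩
  have hrR : (10 : ℝ) ≤ r := by exact_mod_cast hr
  have hs3 : 3 < Real.sqrt r := by
    rw [Real.lt_sqrt (by norm_num)]
    linarith
  have hlt := h15 r hr hr'
  have hsq : ¬ IsSquare r := by
    rintro ⟨q, hq⟩
    have hq1 : q ≤ 3 := by
      by_contra hcon
      have : 4 * 4 ≤ q * q := Nat.mul_le_mul (by omega) (by omega)
      omega
    have : q * q ≤ 3 * 3 := Nat.mul_le_mul hq1 hq1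
    omega
  have hirr : Irrational (Real.sqrt r) := irrational_sqrt_natCast_iff.2 hsq
  have h1 := Pool.Agent.H534R3.UDist.upper (fun n => Real.sqrt r * (s n : ℝ) + (Real.sqrt r - 3))
    (MP_8707bd_ag.PrimeMultiplicities.weyl_of (s := s) hs hirr _) 0
      (Real.sqrt r - 3) δ (by linarith) hδ
  filter_upwards [h1] with N hN
  have h2 : exceptions.{u} r s N ≤ Pool.Agent.H534R3.UDist.cnt (fun n => Real.sqrt r * (s n : ℝ) +
      (Real.sqrt r - 3)) 0 (Real.sqrt r - 3) N := by
    unfold exceptions Pool.Agent.H534R3.UDist.cnt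
    rw [← Set.ncard_coe_finset]
    refine Set.ncard_le_ncard (fun n hn => ?_) (Finset.finite_toSet _)
    obtain ⟨hn1, hn2⟩ := hn
    rw [Finset.mem_coe, Finset.mem_filter, Finset.mem_range]
    refine ⟨hn1, Int.fract_nonneg _, ?_⟩
    obtain ⟨d, g1, g2⟩ := exists_window hr hn2
    have h5 : Int.fract (Real.sqrt r * (s n : ℝ) + (Real.sqrt r - 3)) =
        Real.sqrt r * (s n : ℝ) + (Real.sqrt r - 3) - d := by
      rw [Int.fract_eq_iff]
      exact ⟨by linarith, by linarith, (d : ℤ), by push_cast; ring⟩
    rw [h5]
    linarith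
  calc (exceptions.{u} r s N : ℝ) ≤ _ := by exact_mod_cast h2
    _ ≤ _ := hN
    _ = (Real.sqrt r - 3 + δ) * N := by ring

end Pool.Agent.Results.MP_e6aa12_ag.EveryCharacteristicPrimes
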