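import Pool.Agent.Results.MP_8707bd_ag.PrimeMultiplicities
import Pool.Agent.Results.MP_e6aa12_ag.EveryNumberOfPoints

/-!
# General collisions of `r ≥ 10` fat points, for prime and for polynomial multiplicities

The hand-in `EveryNumberOfPoints` of this problem shows: for every `r ≥ 10` the general collision of
`r` points of multiplicity `m` has the expected postulation in ALL degrees for all `m` outside a set of
upper density at most `bad r < 1`, and at most `ε` for `r ≥ r0(ε)`. This says nothing about thin sets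
of multiplicities. Here the same bounds are proved for the proportion of the exceptional terms of every
sequence whose multiples by any irrational number have exponential sums `o(N)`: in particular for the
prime numbers and for the values of the nonconstant polynomials with integral coefficients. If `r` is
a square there are no exceptional multiplicities.
-/

set_option autoImplicit false

open Filter Topology Finset

namespace Pool.Agent.Results.MP_e6aa12_ag.PrimeMultiplicities

open Pool.Agent.Results.MP_e6aa12_ag.EveryNumberOfPoints (Expected)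

universe u

/-- the multiples of the sequence by every irrational number have exponential sums `o(N)` -/
def Equidistributed (s : ℕ → ℕ) : Prop := ∀ t : ℝ, Irrational t →
  Tendsto (fun N : ℕ => ‖∑ n ∈ range N, Complex.exp (2 * Real.pi * Complex.I * (t * (s n : ℝ) : ℝ))‖ / N)
    atTop (𝓝 0)

/-- the number of the terms `m = s n`, `n < N`, for which the space of forms does not have the expected
dimension in all degrees for the general collision of `r` points of multiplicity `m` -/
noncomputable def exceptions (r : ℕ) (s : ℕ → ℕ) (N : ℕ) : ℕ :=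
  Set.ncard {n : ℕ | n < N ∧ ¬ Expected.{u} r (s n) Set.univ}

/-- the bound for the proportion of the exceptional terms -/
noncomputable def bad (r : ℕ) : ℝ :=
  (min (Real.sqrt r - 3) (2 / 3 + 9 / (4 * Real.sqrt r)) +
    min (Real.sqrt r - 3) (2 / 3 + 1 / (4 * Real.sqrt r))) / 2

lemma univ_of {r m : ℕ} {S : Set ℕ} (h : Expected.{u} r m S) (hS : ∀ d : ℕ, d ∈ S) :
    Expected.{u} r m Set.univ := by
  intro k _ _
  obtain ⟨F, hF, hF'⟩ := h k
  exact ⟨F, hF, fun c a hc d _ => hF' c a hc d (hS d)⟩

lemma window {r : ℕ} {A B : ℝ} (h01 : (A + B) / 2 < 1) {m : ℕ}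
    (h : ∃ d : ℕ, -A ≤ 2 * (d : ℝ) + 3 - Real.sqrt r * (2 * m + 1) ∧
        2 * (d : ℝ) + 3 - Real.sqrt r * (2 * m + 1) ≤ B) :
    Int.fract (Real.sqrt r * m + ((Real.sqrt r - 3) / 2 + B / 2)) ≤ (A + B) / 2 := by
  obtain ⟨d, h1, h2⟩ := h
  have h3 : 0 ≤ Real.sqrt r * m + ((Real.sqrt r - 3) / 2 + B / 2) - d := by linarith
  have h4 : Real.sqrt r * m + ((Real.sqrt r - 3) / 2 + B / 2) - d ≤ (A + B) / 2 := by linarith
  have h5 : Int.fract (Real.sqrt r * m + ((Real.sqrt r - 3) / 2 + B / 2)) =
      Real.sqrt r * m + ((Real.sqrt r - 3) / 2 + B / 2) - d := by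
    rw [Int.fract_eq_iff]
    exact ⟨h3, by linarith, (d : ℤ), by push_cast; ring⟩
  rw [h5]
  exact h4

lemma count_le {s : ℕ → ℕ} (hs : Equidistributed s) {r : ℕ} (hr : ¬ IsSquare r) {A B : ℝ}
    (hAB : 0 ≤ (A + B) / 2) (h01 : (A + B) / 2 < 1)
    (h : ∀ m : ℕ, ¬ Expected.{u} r m Set.univ →
      ∃ d : ℕ, -A ≤ 2 * (d : ℝ) + 3 - Real.sqrt r * (2 * m + 1) ∧
        2 * (d : ℝ) + 3 - Real.sqrt r * (2 * m + 1) ≤ B) {δ : ℝ} (hδ : 0 < δ) :
    ∀ᶠ N : ℕ in atTop, (exceptions.{u} r s N : ℝ) ≤ ((A + B) / 2 + δ) * N := by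
  classical
  have hirr : Irrational (Real.sqrt r) := irrational_sqrt_natCast_iff.2 hr
  have h1 := Pool.Agent.H534R3.UDist.upper (fun n => Real.sqrt r * (s n : ℝ) +
    ((Real.sqrt r - 3) / 2 + B / 2))
      (MP_8707bd_ag.PrimeMultiplicities.weyl_of (s := s) hs hirr _) 0
      ((A + B) / 2 + δ / 2) (δ / 2) (by linarith) (by linarith)
  filter_upwards [h1] with N hN
  have h2 : exceptions.{u} r s N ≤ Pool.Agent.H534R3.UDist.cnt (fun n => Real.sqrt r * (s n : ℝ) +
      ((Real.sqrt r - 3) / 2 + B / 2)) 0 ((A + B) / 2 + δ / 2) N := by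
    unfold exceptions Pool.Agent.H534R3.UDist.cnt
    rw [← Set.ncard_coe_finset]
    refine Set.ncard_le_ncard (fun n hn => ?_) (Finset.finite_toSet _)
    obtain ⟨hn1, hn2⟩ := hn
    rw [Finset.mem_coe, Finset.mem_filter, Finset.mem_range]
    exact ⟨hn1, Int.fract_nonneg _, (window h01 (h (s n) hn2)).trans_lt (by linarith)⟩
  calc (exceptions.{u} r s N : ℝ) ≤ _ := by exact_mod_cast h2
    _ ≤ _ := hN
    _ = ((A + B) / 2 + δ) * N := by ring

/-- no exceptional multiplicities if `r` is a square -/
lemma square {r : ℕ} (hr : 10 ≤ r) (hsq : IsSquare r) (m : ℕ) : Expected.{u} r m Set.univ := by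
  intro k _ _
  obtain ⟨F, hF, hF'⟩ := Pool.Agent.TH183.QS.coll_start (m := m) hr (Or.inr hsq) k
  exact ⟨F, hF, fun c a hc d _ => hF' c a hc d⟩

lemma exceptions_square {r : ℕ} (hr : 10 ≤ r) (hsq : IsSquare r) (s : ℕ → ℕ) (N : ℕ) :
    exceptions.{u} r s N = 0 := by
  unfold exceptions
  have : {n : ℕ | n < N ∧ ¬ Expected.{u} r (s n) Set.univ} = ∅ := by
    rw [Set.eq_empty_iff_forall_notMem]
    rintro n ⟨-, hn⟩
    exact hn (square hr hsq (s n))
  rw [this, Set.ncard_empty]

lemma bad_pos {r : ℕ} (hr : 10 ≤ r) : 0 ≤ bad r := by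
  have hrR : (10 : ℝ) ≤ r := by exact_mod_cast hr
  have hs3 : 3 < Real.sqrt r := by
    rw [Real.lt_sqrt (by norm_num)]
    linarith
  have h1 : 0 ≤ min (Real.sqrt r - 3) (2 / 3 + 9 / (4 * Real.sqrt r)) :=
    le_min (by linarith) (by positivity)
  have h2 : 0 ≤ min (Real.sqrt r - 3) (2 / 3 + 1 / (4 * Real.sqrt r)) :=
    le_min (by linarith) (by positivity)
  unfold bad
  linarith

/-- **Main theorem.** (1) `bad r < 1` for `r ≥ 10`, `bad 10 < 0.163`. (2) Let `s` be an equidistributed
sequence and `r ≥ 10`. For all but at most `(bad r + δ) N` of the first `N` terms `m` of the sequence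
the space of forms of degree `d` containing the general collision of `r` points of multiplicity `m` has
the expected dimension for ALL degrees `d`, over all fields of characteristic zero. (3) The proportion
of the exceptional terms is at most `ε` for all `r ≥ r0(ε)`, where `r0(ε)` does not depend on the
sequence. (4) The sequence of the primes and the sequences of the values of nonconstant polynomials
with integral coefficients (with values `≥ 0`) are equidistributed. -/
theorem result :
    ((∀ r : ℕ, 10 ≤ r → bad r < 1) ∧ bad 10 < 0.163) ∧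
    (∀ s : ℕ → ℕ, Equidistributed s → ∀ r : ℕ, 10 ≤ r → ∀ δ : ℝ, 0 < δ →
      ∀ᶠ N : ℕ in atTop, (exceptions.{u} r s N : ℝ) ≤ (bad r + δ) * N) ∧
    (∀ ε : ℝ, 0 < ε → ∃ r0 : ℕ, ∀ r : ℕ, r0 ≤ r → ∀ s : ℕ → ℕ, Equidistributed s →
      ∀ᶠ N : ℕ in atTop, (exceptions.{u} r s N : ℝ) ≤ ε * N) ∧
    Equidistributed (Nat.nth Nat.Prime) ∧
    (∀ q : Polynomial ℤ, 0 < q.natDegree → ∀ s : ℕ → ℕ, (∀ n : ℕ, (s n : ℤ) = q.eval (n : ℤ)) →
      Equidistributed s) := by
  obtain ⟨hbad, h10, -⟩ := MP_8707bd_ag.AllDegreesPositiveProportion.result.2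
  have hb : ∀ r : ℕ, 10 ≤ r → bad r < 1 := hbad
  obtain ⟨-, hwin, -, -, hunif⟩ := EveryNumberOfPoints.result.{u}
  refine ⟨⟨hb, h10⟩, fun s hs r hr δ hδ => ?_, fun ε hε => ?_,
    MP_8707bd_ag.PrimeMultiplicities.good_primes,
    MP_8707bd_ag.PrimeMultiplicities.good_polynomial⟩
  · by_cases hsq : IsSquare r
    · refine Eventually.of_forall fun N => ?_
      rw [exceptions_square hr hsq s N, Nat.cast_zero]
      have := bad_pos hr
      positivity
    · have h2 : (min (Real.sqrt r - 3) (2 / 3 + 9 / (4 * Real.sqrt r)) +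
        min (Real.sqrt r - 3) (2 / 3 + 1 / (4 * Real.sqrt r))) / 2 = bad r := rfl
      have h5 := count_le.{u} hs hsq (A := min (Real.sqrt r - 3) (2 / 3 + 9 / (4 * Real.sqrt r)))
        (B := min (Real.sqrt r - 3) (2 / 3 + 1 / (4 * Real.sqrt r)))
        (by rw [h2]; exact bad_pos hr) (by rw [h2]; exact hb r hr) (fun m hm => by
          by_contra hcon
          push Not at hcon
          apply hm
          refine univ_of (hwin r m hr) fun d => ?_
          simp only [Set.mem_ofPred_eq]
          by_contra hd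
          push Not at hd
          obtain ⟨d1, d2, d3, d4⟩ := hd
          have hlo' : -min (Real.sqrt r - 3) (2 / 3 + 9 / (4 * Real.sqrt r)) ≤
              2 * (d : ℝ) + 3 - Real.sqrt r * (2 * m + 1) := by
            rcases min_choice (Real.sqrt r - 3) (2 / 3 + 9 / (4 * Real.sqrt r)) with h | h <;>
              rw [h] <;> linarith
          have hhi' := hcon d hlo'
          have hhi'' : 2 * (d : ℝ) + 3 - Real.sqrt r * (2 * m + 1) ≤
              min (Real.sqrt r - 3) (2 / 3 + 1 / (4 * Real.sqrt r)) := by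
            rcases min_choice (Real.sqrt r - 3) (2 / 3 + 1 / (4 * Real.sqrt r)) with h | h <;>
              rw [h] <;> linarith
          linarith) hδ
      rwa [h2] at h5
  · obtain ⟨N, hN⟩ := hunif (min (ε / 2) (1 / 2)) (by positivity)
    refine ⟨max N 10, fun r hr s hs => ?_⟩
    have hr10 : 10 ≤ r := (le_max_right _ _).trans hr
    have hrN : N ≤ r := (le_max_left _ _).trans hr
    by_cases hsq : IsSquare r
    · refine Eventually.of_forall fun M => ?_
      rw [exceptions_square hr10 hsq s M, Nat.cast_zero]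
      positivity
    · set η : ℝ := min (ε / 2) (1 / 2) with hη
      have hη0 : 0 < η := by positivity
      have hη1 : η ≤ 1 / 2 := min_le_right _ _
      have hη2 : η ≤ ε / 2 := min_le_left _ _
      have h5 := count_le.{u} hs hsq (A := η) (B := η) (by linarith)
        (by linarith) (fun m hm => by
          by_contra hcon
          push Not at hcon
          apply hm
          refine univ_of ((hN r hrN).1 m) fun d => ?_
          simp only [Set.mem_ofPred_eq]
          rw [le_abs]
          rcases le_or_gt (-η) (2 * (d : ℝ) + 3 - Real.sqrt r * (2 * m + 1)) with h4 | h4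
          · exact Or.inl (hcon d h4).le
          · right; linarith) (show 0 < η by positivity)
      filter_upwards [h5] with M hM
      refine hM.trans (mul_le_mul_of_nonneg_right (by linarith) (Nat.cast_nonneg M))

end Pool.Agent.Results.MP_e6aa12_ag.PrimeMultiplicities
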